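import Pool.Agent.W97.KE.Stm

/-! Project KE, part PSI: the points of order seven. -/

set_option autoImplicit false

namespace Pool.Agent.W935.KE

open WeierstrassCurve.Affine WeierstrassCurve.Affine.Point

/-- the cubic -/
def ff {F : Type*} [Field F] (x : F) : F := x ^ 3 - 11 * x ^ 2 - x

/-- the derivative of the cubic -/
def df {F : Type*} [Field F] (x : F) : F := 3 * x ^ 2 - 22 * x - 1

/-- the division polynomial of order three -/
def p3 {F : Type*} [Field F] (x : F) : F := 3 * x ^ 4 - 44 * x ^ 3 - 6 * x ^ 2 - 1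

/-- the division polynomial of order four, divided by that of order two -/
def g4 {F : Type*} [Field F] (x : F) : F :=
  2 * x ^ 6 - 44 * x ^ 5 - 10 * x ^ 4 - 10 * x ^ 2 + 44 * x + 2

/-- the division polynomial of order seven -/
def p7 {F : Type*} [Field F] (x : F) : F :=
  (16 * ff x ^ 2 * g4 x - p3 x ^ 3) * p3 x ^ 3 - 16 * ff x ^ 2 * g4 x ^ 3

lemma id1 {F : Type*} [Field F] (x : F) : df x ^ 2 + (11 - 2 * x) * (4 * ff x) = (x ^ 2 + 1) ^ 2 := by
  unfold df ff; ring

lemma id2 {F : Type*} [Field F] (x : F) : (x ^ 2 + 1) ^ 2 = 4 * x * ff x - p3 x := by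
  unfold p3 ff; ring

lemma id3 {F : Type*} [Field F] (x : F) : g4 x + 16 * ff x ^ 2 = 2 * df x * p3 x := by
  unfold p3 ff df g4; ring

lemma id4 {F : Type*} [Field F] (x : F) : ((x ^ 2 + 1) ^ 4 + 16 * ff x ^ 2) ^ 2 =
    4 * x * ff x * g4 x ^ 2 - p3 x * (16 * ff x ^ 2 * g4 x - p3 x ^ 3) := by
  unfold p3 ff g4; ring

lemma id5 {F : Type*} [Field F] (x : F) : p3 x = 2 * ff x * (6 * x - 22) - df x ^ 2 := by
  unfold p3 ff df; ring

section
variable {F : Type*} [Field F] [DecidableEq F] {W : WeierstrassCurve.Affine F}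
  (a1 : W.a₁ = 0) (a2 : W.a₂ = -11) (a3 : W.a₃ = 0) (a4 : W.a₄ = -1) (a6 : W.a₆ = 0)
include a1 a2 a3 a4 a6

omit [DecidableEq F] in
lemma eqn {x y : F} (h : W.Nonsingular x y) : y ^ 2 = ff x := by
  have h1 := (W.equation_iff' x y).1 h.1
  rw [a1, a2, a3, a4, a6] at h1
  unfold ff
  linear_combination h1

omit [DecidableEq F] a2 a4 a6 in
lemma negY_eq (x y : F) : W.negY x y = -y := by
  unfold WeierstrassCurve.Affine.negY
  rw [a1, a3]; ring

omit [DecidableEq F] a6 in
lemma df_ne {x : F} (h : W.Nonsingular x 0) : df x ≠ 0 := by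
  have h1 := ((W.nonsingular_iff' x 0).1 h).2
  rw [a1, a2, a3, a4] at h1
  intro h2
  rcases h1 with h1 | h1
  · apply h1
    unfold df at h2
    linear_combination -h2
  · apply h1; ring

lemma dbl (h2 : (2 : F) ≠ 0) {x y : F} (h : W.Nonsingular x y) (hy : y ≠ 0) :
    ∃ (X Y : F) (h' : W.Nonsingular X Y), Point.some x y h + Point.some x y h =
      Point.some X Y h' ∧ X * (4 * y ^ 2) = (x ^ 2 + 1) ^ 2 ∧ Y * (16 * y ^ 3) = g4 x := by
  have hne : y ≠ W.negY x y := by
    rw [negY_eq a1 a3]
    intro h3
    have : 2 * y = 0 := by linear_combination h3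
    rcases mul_eq_zero.1 this with h4 | h4
    · exact h2 h4
    · exact hy h4
  have he := eqn a1 a2 a3 a4 a6 h
  have h4 : (4 : F) ≠ 0 := by
    have : (4 : F) = 2 * 2 := by norm_num
    rw [this]; exact mul_ne_zero h2 h2
  have hsl : W.slope x x y y = df x / (2 * y) := by
    rw [slope_of_Y_ne rfl hne, negY_eq a1 a3, a1, a2, a4]
    unfold df
    congr 1 <;> ring
  refine ⟨_, _, _, add_self_of_Y_ne hne, ?_, ?_⟩
  · rw [hsl]
    unfold WeierstrassCurve.Affine.addX
    rw [a1, a2]
    have := id1 x
    rw [← he] at this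
    rw [← this]
    field_simp
    ring
  · rw [hsl]
    unfold WeierstrassCurve.Affine.addY WeierstrassCurve.Affine.negAddY
    rw [negY_eq a1 a3]
    unfold WeierstrassCurve.Affine.addX
    rw [a1, a2]
    have e1 := id1 x
    have e2 := id2 x
    have e3 := id3 x
    rw [← he] at e1 e2 e3
    have e4 : (df x / (2 * y)) ^ 2 + 0 * (df x / (2 * y)) - -11 - x - x - x =
        -(p3 x) / (4 * y ^ 2) := by
      field_simp
      linear_combination 4 * (e1 + e2)
    have e5 : -(df x / (2 * y) *
        ((df x / (2 * y)) ^ 2 + 0 * (df x / (2 * y)) - -11 - x - x - x) + y) * (16 * y ^ 3) =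
        g4 x := by
      rw [e4]
      field_simp
      linear_combination -8 * e3
    exact e5

lemma tpl (h2 : (2 : F) ≠ 0) {x y : F} (h : W.Nonsingular x y) (hy : y ≠ 0) (h3 : p3 x ≠ 0) :
    ∃ (X Y : F) (h' : W.Nonsingular X Y),
      Point.some x y h + Point.some x y h + Point.some x y h = Point.some X Y h' ∧
        X * p3 x ^ 2 = x * p3 x ^ 2 - 4 * y ^ 2 * g4 x := by
  obtain ⟨X, Y, h', e, hX, hY⟩ := dbl a1 a2 a3 a4 a6 h2 h hy
  have h4 : (4 : F) ≠ 0 := by
    have : (4 : F) = 2 * 2 := by norm_num
    rw [this]; exact mul_ne_zero h2 h2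
  have h16 : (16 : F) ≠ 0 := by
    have : (16 : F) = 4 * 4 := by norm_num
    rw [this]; exact mul_ne_zero h4 h4
  have he := eqn a1 a2 a3 a4 a6 h
  have hX' : X = (x ^ 2 + 1) ^ 2 / (4 * y ^ 2) := by
    rw [eq_div_iff (mul_ne_zero h4 (pow_ne_zero 2 hy))]; exact hX
  have hY' : Y = g4 x / (16 * y ^ 3) := by
    rw [eq_div_iff (mul_ne_zero h16 (pow_ne_zero 3 hy))]; exact hY
  have e1 := id1 x
  have e2 := id2 x
  have e3 := id3 x
  rw [← he] at e1 e2 e3
  have hd : X - x = -(p3 x) / (4 * y ^ 2) := by
    rw [hX', eq_div_iff (mul_ne_zero h4 (pow_ne_zero 2 hy)), sub_mul,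
      div_mul_cancel₀ _ (mul_ne_zero h4 (pow_ne_zero 2 hy))]
    linear_combination e2
  have hXx : X ≠ x := by
    intro h5
    rw [h5, sub_self] at hd
    have := hd.symm
    rw [div_eq_zero_iff, neg_eq_zero] at this
    rcases this with h6 | h6
    · exact h3 h6
    · exact mul_ne_zero h4 (pow_ne_zero 2 hy) h6
  have hsl : W.slope X x Y y = -(df x * p3 x - 16 * y ^ 4) / (2 * y * p3 x) := by
    rw [slope_of_X_ne hXx, hd, hY']
    field_simp
    linear_combination -8 * e3
  rw [e]
  refine ⟨_, _, _, add_of_X_ne hXx, ?_⟩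
  rw [hsl]
  unfold WeierstrassCurve.Affine.addX
  rw [a1, a2, hX']
  field_simp
  linear_combination 4 * (p3 x ^ 2 * e1 + 16 * y ^ 4 * e3)

omit a2 a4 a6 in
lemma dbl0 (h2 : (2 : F) ≠ 0) {x y : F} (h : W.Nonsingular x y) (hy : y = 0) :
    Point.some x y h + Point.some x y h = 0 := by
  apply add_self_of_Y_eq
  rw [negY_eq a1 a3, hy, _root_.neg_zero]

theorem seven (h2 : (2 : F) ≠ 0) {x y : F} (h : W.Nonsingular x y) :
    7 • Point.some x y h = 0 ↔ p7 x = 0 := by
  have h4 : (4 : F) ≠ 0 := by
    have : (4 : F) = 2 * 2 := by norm_num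
    rw [this]; exact mul_ne_zero h2 h2
  have h16 : (16 : F) ≠ 0 := by
    have : (16 : F) = 4 * 4 := by norm_num
    rw [this]; exact mul_ne_zero h4 h4
  have he := eqn a1 a2 a3 a4 a6 h
  have hP0 : Point.some x y h ≠ 0 := some_ne_zero h
  have h7 : 7 • Point.some x y h = ((Point.some x y h + Point.some x y h) +
      (Point.some x y h + Point.some x y h)) +
      ((Point.some x y h + Point.some x y h) + Point.some x y h) := by abel
  by_cases hy : y = 0
  · -- `2 P = 0`
    have hf : ff x = 0 := by rw [← he, hy]; ring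
    have hdf : df x ≠ 0 := by
      subst hy
      exact df_ne a1 a2 a3 a4 h
    have h5 := id5 x
    rw [hf] at h5
    have h3 : p3 x ≠ 0 := by
      rw [h5]
      have := pow_ne_zero 2 hdf
      intro h6
      apply this
      linear_combination -h6
    have hP : Point.some x y h + Point.some x y h = 0 := dbl0 a1 a3 h2 h hy
    rw [h7, hP]
    refine iff_of_false (by simp) ?_
    unfold p7
    rw [hf]
    have := pow_ne_zero 6 h3
    intro h6
    apply this
    linear_combination -h6
  · obtain ⟨X, Y, h', e, hX, hY⟩ := dbl a1 a2 a3 a4 a6 h2 h hy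
    by_cases h3 : p3 x = 0
    · -- `3 P = 0`
      have hXx : X = x := by
        have e2 := id2 x
        rw [← he, h3] at e2
        have : X * (4 * y ^ 2) = x * (4 * y ^ 2) := by rw [hX, e2]; ring
        exact mul_right_cancel₀ (mul_ne_zero h4 (pow_ne_zero 2 hy)) this
      have hor : Point.some X Y h' = Point.some x y h ∨
          Point.some X Y h' = -Point.some x y h := X_eq_iff.1 hXx
      rcases hor with h5 | h5
      · rw [← e] at h5
        exact absurd (by simpa using h5) hP0
      · have h3P : Point.some x y h + Point.some x y h + Point.some x y h = 0 := by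
          rw [e, h5]; abel
        have hPP : Point.some x y h + Point.some x y h = -Point.some x y h := e.trans h5
        rw [h7, h3P, hPP, add_zero, ← neg_add, hPP, neg_neg]
        refine iff_of_false hP0 ?_
        have hYy : Y = -y := by
          rw [neg_some] at h5
          exact (Point.some.inj h5).2.trans (negY_eq a1 a3 x y)
        rw [hYy] at hY
        unfold p7
        rw [h3, ← he, ← hY]
        have := mul_ne_zero (pow_ne_zero 4 h16) (pow_ne_zero 16 hy)
        intro h6
        apply this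
        linear_combination h6
    · obtain ⟨X3, Y3, h3', e3, hX3⟩ := tpl a1 a2 a3 a4 a6 h2 h hy h3
      by_cases h4z : g4 x = 0
      · -- `4 P = 0`
        have hY0 : Y = 0 := by
          rw [h4z] at hY
          rcases mul_eq_zero.1 hY with h5 | h5
          · exact h5
          · exact absurd h5 (mul_ne_zero h16 (pow_ne_zero 3 hy))
        have h4P := dbl0 a1 a3 h2 h' hY0
        rw [h7, e3, e, h4P, zero_add]
        refine iff_of_false (some_ne_zero _) ?_
        unfold p7
        rw [h4z]
        have := pow_ne_zero 6 h3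
        intro h6
        apply this
        linear_combination -h6
      · have hY0 : Y ≠ 0 := by
          intro h5
          rw [h5, zero_mul] at hY
          exact h4z hY.symm
        obtain ⟨X4, Y4, h4', e4, hX4, -⟩ := dbl a1 a2 a3 a4 a6 h2 h' hY0
        rw [h7, e3, e, e4]
        have key : (X4 - X3) * (4 * g4 x ^ 2 * y ^ 2 * p3 x ^ 2) = -p7 x := by
          have i4 := id4 x
          rw [← he] at i4
          have e5 : X4 * (4 * g4 x ^ 2 * y ^ 2) = ((x ^ 2 + 1) ^ 4 + 16 * (y ^ 2) ^ 2) ^ 2 := by
            rw [← hY]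
            have : ((x ^ 2 + 1) ^ 4 + 16 * (y ^ 2) ^ 2) = (X ^ 2 + 1) * (16 * y ^ 4) := by
              have : (x ^ 2 + 1) ^ 4 = ((x ^ 2 + 1) ^ 2) ^ 2 := by ring
              rw [this, ← hX]; ring
            rw [this]
            linear_combination (256 * y ^ 8) * hX4
          rw [i4] at e5
          unfold p7
          rw [← he]
          linear_combination p3 x ^ 2 * e5 - (4 * g4 x ^ 2 * y ^ 2) * hX3
        have hD : (4 * g4 x ^ 2 * y ^ 2 * p3 x ^ 2) ≠ 0 :=
          mul_ne_zero (mul_ne_zero (mul_ne_zero h4 (pow_ne_zero 2 h4z)) (pow_ne_zero 2 hy))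
            (pow_ne_zero 2 h3)
        constructor
        · intro h8
          have h9 : Point.some X4 Y4 h4' = -Point.some X3 Y3 h3' := eq_neg_of_add_eq_zero_left h8
          have h10 : X4 = X3 := X_eq_iff.2 (Or.inr h9)
          rw [h10, sub_self, zero_mul] at key
          exact neg_eq_zero.1 key.symm
        · intro h8
          rw [h8, _root_.neg_zero] at key
          rcases mul_eq_zero.1 key with h9 | h9
          · have h10 : X4 = X3 := sub_eq_zero.1 h9
            rcases (X_eq_iff (h₁ := h4') (h₂ := h3')).1 h10 with h11 | h11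
            · exfalso
              rw [← e4, ← e3, ← e] at h11
              apply hP0
              have : Point.some x y h + Point.some x y h + (Point.some x y h + Point.some x y h) -
                  (Point.some x y h + Point.some x y h + Point.some x y h) =
                  Point.some x y h := by abel
              rw [← this, h11, sub_self]
            · rw [h11]; abel
          · exact absurd h9 hD

end

lemma psi7_eval {F : Type*} [Field F] (x : F) :
    (Pool.Agent.W97.KE.Psi7.map (Int.castRingHom F)).eval x = p7 x := by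
  unfold Pool.Agent.W97.KE.Psi7
  simp only [Finset.sum_range_succ, Finset.sum_range_zero, Pool.Agent.W97.KE.cf7]
  simp
  unfold p7 p3 g4 ff
  ring

open scoped Classical in
theorem s_psi : Pool.Agent.W97.KE.S_PSI := by
  intro F _ h2 _ _ _ x y h
  rw [psi7_eval]
  refine seven (W := (Pool.Agent.W97.V20.E4.baseChange F).toAffine) ?_ ?_ ?_ ?_ ?_ h2 h
  all_goals simp [Pool.Agent.W97.V20.E4, WeierstrassCurve.baseChange]

end Pool.Agent.W935.KE
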